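import Pool.Agent.Lib.MP_fa837f_gt.P2.Iface

/-!
Project P2, module IB: the rule of integration by parts.
-/

set_option autoImplicit false

open MeasureTheory Matrix Set Filter Topology

namespace Pool.Agent.Lib.MP_fa837f_gt.P2.H16

variable {n k : ℕ}

lemma D_eq (S : Sys n k) (i : Fin n) (c : Fin 3) (f : Pt k → ℝ) (y : Pt k) :
    S.D i c f y = ∑ a, bb S.m (S.r y) i a * fderiv ℝ f y (Pi.single (a, c) 1) := by
  have h : S.fr y i c = ∑ a, bb S.m (S.r y) i a • (Pi.single (a, c) 1 : Pt k) := by
    funext p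
    obtain ⟨b, d⟩ := p
    rw [Finset.sum_apply]
    simp only [Sys.fr, Pi.smul_apply, smul_eq_mul, Pi.single_apply, Prod.mk.injEq]
    by_cases hd : d = c
    · subst hd
      simp
    · simp [hd]
  rw [Sys.D, h, map_sum]
  refine Finset.sum_congr rfl fun a _ => ?_
  rw [map_smul, smul_eq_mul]

lemma Yv_single (m : Fin n → Fin k → ℝ) (a : Fin k) (c : Fin 3) (l : Fin n) (d : Fin 3) :
    Yv m (Pi.single (a, c) 1 : Pt k) l d = if d = c then m l a else 0 := by
  unfold Yv
  by_cases hd : d = c
  · subst hd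
    rw [Finset.sum_eq_single a]
    · simp
    · intro b _ hb
      simp [Pi.single_apply, hb]
    · simp
  · rw [if_neg hd]
    refine Finset.sum_eq_zero fun b _ => ?_
    simp [Pi.single_apply, hd]

lemma sumc (S : Sys n k) (y : Pt k) (a : Fin k) (c : Fin 3) (l : Fin n) :
    ∑ d, Yv S.m y l d * Yv S.m (Pi.single (a, c) 1 : Pt k) l d = Yv S.m y l c * S.m l a := by
  rw [Finset.sum_eq_single c]
  · rw [Yv_single, if_pos rfl]
  · intro d _ hd
    rw [Yv_single, if_neg hd, mul_zero]
  · simp

lemma dl_single (S : Sys n k) (y : Pt k) (a : Fin k) (c : Fin 3) (l : Fin n) :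
    S.dl y (Pi.single (a, c) 1) l = 2 * S.δ / S.L y l * (Yv S.m y l c * S.m l a) := by
  rw [Sys.dl, sumc]

/-- The logarithmic derivative of `b_i ρ`. -/
noncomputable def Q (S : Sys n k) (i : Fin n) (c : Fin 3) (a : Fin k) (y : Pt k) : ℝ :=
  -(∑ l, bb S.m (S.r y) l a * be S.m (S.r y) l i *
      (S.r y l * (2 * S.δ / S.L y l * (Yv S.m y l c * S.m l a)))) +
    bb S.m (S.r y) i a *
      (∑ l, S.r y l * be S.m (S.r y) l l * (2 * S.δ / S.L y l * (Yv S.m y l c * S.m l a)) -
        2 * ∑ l, S.r y l * (Yv S.m y l c * S.m l a))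

lemma fd_g (S : Sys n k) (hR : RFacts S 0) (i : Fin n) (c : Fin 3) (a : Fin k) (y : Pt k) :
    fderiv ℝ (fun z => bb S.m (S.r z) i a * S.rho z) y (Pi.single (a, c) 1) =
      Q S i c a y * S.rho y := by
  have h1 : DifferentiableAt ℝ (fun z => bb S.m (S.r z) i a) y :=
    ((hR.sbb i a).differentiable (by simp)).differentiableAt
  have h2 : DifferentiableAt ℝ S.rho y := (hR.srho.differentiable (by simp)).differentiableAt
  rw [fderiv_fun_mul h1 h2]
  simp only [ContinuousLinearMap.add_apply, ContinuousLinearMap.smul_apply, smul_eq_mul]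
  rw [hR.drho, hR.dbb]
  simp only [dl_single, sumc]
  unfold Q
  ring

lemma sum_Q (S : Sys n k) (hW : WaStatement) (hL : LFacts S) (i : Fin n) (c : Fin 3) (y : Pt k) :
    ∑ a, Q S i c a y = -(2 * Yv S.m y i c) := by
  have hB := hW n k S.m (S.r y) S.hm (fun l => hL.rpos y l)
  have hbb : ∀ l j, ∑ a, bb S.m (S.r y) j a * S.m l a = be S.m (S.r y) l j := by
    intro l j
    rw [be, dotProduct]
    exact Finset.sum_congr rfl fun a _ => mul_comm _ _
  have e1 : ∑ a, ∑ l, bb S.m (S.r y) l a * be S.m (S.r y) l i *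
      (S.r y l * (2 * S.δ / S.L y l * (Yv S.m y l c * S.m l a))) =
      ∑ l, be S.m (S.r y) l l * be S.m (S.r y) l i *
      (S.r y l * (2 * S.δ / S.L y l * Yv S.m y l c)) := by
    rw [Finset.sum_comm]
    refine Finset.sum_congr rfl fun l _ => ?_
    rw [← hbb l l, Finset.sum_mul, Finset.sum_mul]
    exact Finset.sum_congr rfl fun a _ => by ring
  have e2 : ∑ a, bb S.m (S.r y) i a *
      (∑ l, S.r y l * be S.m (S.r y) l l * (2 * S.δ / S.L y l * (Yv S.m y l c * S.m l a))) =
      ∑ l, be S.m (S.r y) l l * be S.m (S.r y) l i *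
      (S.r y l * (2 * S.δ / S.L y l * Yv S.m y l c)) := by
    simp only [Finset.mul_sum]
    rw [Finset.sum_comm]
    refine Finset.sum_congr rfl fun l _ => ?_
    rw [← hbb l i, Finset.mul_sum, Finset.sum_mul]
    exact Finset.sum_congr rfl fun a _ => by ring
  have e3 : ∑ a, bb S.m (S.r y) i a * ∑ l, S.r y l * (Yv S.m y l c * S.m l a) =
      Yv S.m y i c := by
    simp only [Finset.mul_sum]
    rw [Finset.sum_comm]
    have h := hB.repr i (fun a => y (a, c))
    have hY : ∀ l, (S.m l ⬝ᵥ fun a => y (a, c)) = Yv S.m y l c := fun l => rfl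
    simp only [hY] at h
    rw [← h]
    refine Finset.sum_congr rfl fun l _ => ?_
    rw [hB.symm i l, ← hbb l i, Finset.sum_mul, Finset.sum_mul]
    exact Finset.sum_congr rfl fun a _ => by ring
  unfold Q
  rw [Finset.sum_add_distrib, Finset.sum_neg_distrib, e1]
  simp only [mul_sub]
  rw [Finset.sum_sub_distrib, e2]
  have e4 : ∑ a, bb S.m (S.r y) i a * (2 * ∑ l, S.r y l * (Yv S.m y l c * S.m l a)) =
      2 * Yv S.m y i c := by
    rw [← e3, Finset.mul_sum]
    exact Finset.sum_congr rfl fun a _ => by ring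
  rw [e4]
  ring

lemma pb_const (a : ℝ) : PB (fun _ : Pt k => a) := ⟨|a|, 0, fun y => by simp⟩

lemma pb_neg {f : Pt k → ℝ} (hf : PB f) : PB (fun y => -f y) := by
  obtain ⟨C, N, h⟩ := hf
  exact ⟨C, N, fun y => by rw [abs_neg]; exact h y⟩

lemma pb_sum (hTm : TmStatement) {ι : Type} (s : Finset ι) {f : ι → Pt k → ℝ}
    (hf : ∀ i, PB (f i)) : PB (fun y => ∑ i ∈ s, f i y) := by
  classical
  induction s using Finset.induction_on with
  | empty => simpa using pb_const (k := k) 0
  | insert a s ha ih =>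
    have := ((hTm k).2.2.2.2.1 (f a) _ (hf a) ih).1
    simpa [Finset.sum_insert ha] using this

lemma pb_Q (hTm : TmStatement) (S : Sys n k) (hT : TFacts S 0) (i : Fin n) (c : Fin 3)
    (a : Fin k) : PB (Q S i c a) := by
  have mulP : ∀ f g : Pt k → ℝ, PB f → PB g → PB (fun y => f y * g y) :=
    fun f g hf hg => ((hTm k).2.2.2.2.1 f g hf hg).2
  have addP : ∀ f g : Pt k → ℝ, PB f → PB g → PB (fun y => f y + g y) :=
    fun f g hf hg => ((hTm k).2.2.2.2.1 f g hf hg).1
  have hY : ∀ l, PB (fun y => Yv S.m y l c * S.m l a) :=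
    fun l => mulP _ _ (hT.tY l c).bd (pb_const _)
  have hd : ∀ l, PB (fun y => 2 * S.δ / S.L y l * (Yv S.m y l c * S.m l a)) := by
    intro l
    simp only [div_eq_mul_inv]
    exact mulP _ _ (mulP _ _ (pb_const (2 * S.δ)) (hT.tLi l).bd) (hY l)
  have h1 : PB (fun y => ∑ l, bb S.m (S.r y) l a * be S.m (S.r y) l i *
      (S.r y l * (2 * S.δ / S.L y l * (Yv S.m y l c * S.m l a)))) :=
    pb_sum hTm _ fun l => mulP _ _ (mulP _ _ (hT.pbb l a) (hT.tbe l i).bd)
      (mulP _ _ (hT.tr l).bd (hd l))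
  have h2 : PB (fun y => ∑ l, S.r y l * be S.m (S.r y) l l *
      (2 * S.δ / S.L y l * (Yv S.m y l c * S.m l a))) :=
    pb_sum hTm _ fun l => mulP _ _ (mulP _ _ (hT.tr l).bd (hT.tbe l l).bd) (hd l)
  have h3 : PB (fun y => 2 * ∑ l, S.r y l * (Yv S.m y l c * S.m l a)) :=
    mulP _ _ (pb_const 2) (pb_sum hTm _ fun l => mulP _ _ (hT.tr l).bd (hY l))
  have h4 : PB (fun y => bb S.m (S.r y) i a *
      (∑ l, S.r y l * be S.m (S.r y) l l * (2 * S.δ / S.L y l * (Yv S.m y l c * S.m l a)) -
        2 * ∑ l, S.r y l * (Yv S.m y l c * S.m l a))) := by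
    simp only [sub_eq_add_neg]
    exact mulP _ _ (hT.pbb i a) (addP _ _ h2 (pb_neg h3))
  exact addP _ _ (pb_neg h1) h4

lemma cont_Q (S : Sys n k) (hL : LFacts S) (hR : RFacts S 0) (i : Fin n) (c : Fin 3)
    (a : Fin k) : Continuous (Q S i c a) := by
  have hY : ∀ l, Continuous (fun y => Yv S.m y l c * S.m l a) :=
    fun l => (hL.sY l c).continuous.mul continuous_const
  have hd : ∀ l, Continuous (fun y => 2 * S.δ / S.L y l * (Yv S.m y l c * S.m l a)) :=
    fun l => (continuous_const.div (hL.sL l).continuous fun y => (hL.Lpos y l).ne').mul (hY l)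
  unfold Q
  refine Continuous.add (Continuous.neg ?_) (Continuous.mul (hR.sbb i a).continuous
    (Continuous.sub ?_ (Continuous.mul continuous_const ?_)))
  · exact continuous_finsetSum _ fun l _ => ((hR.sbb l a).continuous.mul
      (hR.sbe l i).continuous).mul ((hL.sr l).continuous.mul (hd l))
  · exact continuous_finsetSum _ fun l _ => ((hL.sr l).continuous.mul
      (hR.sbe l l).continuous).mul (hd l)
  · exact continuous_finsetSum _ fun l _ => (hL.sr l).continuous.mul (hY l)

/-- IB. -/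
theorem ib_st (hWa : WaStatement) (hSl : SlStatement) (hSr : SrStatement) (hTs : TsStatement)
    (hIn : InStatement) (hTm : TmStatement) : IbStatement := by
  intro n k S i c f hf
  have hR := hSr n k S 0
  have hT := hTs n k S 0
  have hL := hSl n k S
  have mulP : ∀ f g : Pt k → ℝ, PB f → PB g → PB (fun y => f y * g y) :=
    fun f g hf hg => ((hTm k).2.2.2.2.1 f g hf hg).2
  have hfc : Continuous f := hf.smooth.continuous
  have hdc : ∀ a, Continuous fun y => fderiv ℝ f y (Pi.single (a, c) 1) := fun a =>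
    (hf.smooth.continuous_fderiv (by simp)).clm_apply continuous_const
  have hfd : Differentiable ℝ f := hf.smooth.differentiable (by simp)
  have hgd : ∀ a, Differentiable ℝ (fun z => bb S.m (S.r z) i a * S.rho z) := fun a =>
    ((hR.sbb i a).differentiable (by simp)).mul (hR.srho.differentiable (by simp))
  have i1 : ∀ a, Integrable fun y => bb S.m (S.r y) i a * S.rho y *
      fderiv ℝ f y (Pi.single (a, c) 1) := by
    intro a
    have := hIn n k S (fun y => bb S.m (S.r y) i a * fderiv ℝ f y (Pi.single (a, c) 1))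
      ((hR.sbb i a).continuous.mul (hdc a)) (mulP _ _ (hT.pbb i a) (hf.dbd (a, c)))
    refine this.congr (Filter.Eventually.of_forall fun y => ?_)
    simp only
    ring
  have i2 : ∀ a, Integrable fun y => Q S i c a y * f y * S.rho y := fun a =>
    hIn n k S (fun y => Q S i c a y * f y) ((cont_Q S hL hR i c a).mul hfc)
      (mulP _ _ (pb_Q hTm S hT i c a) hf.bd)
  have i3 : ∀ a, Integrable fun y => bb S.m (S.r y) i a * S.rho y * f y := by
    intro a
    have := hIn n k S (fun y => bb S.m (S.r y) i a * f y)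
      ((hR.sbb i a).continuous.mul hfc) (mulP _ _ (hT.pbb i a) hf.bd)
    refine this.congr (Filter.Eventually.of_forall fun y => ?_)
    simp only
    ring
  have i4 : ∀ a, Integrable fun y =>
      fderiv ℝ (fun z => bb S.m (S.r z) i a * S.rho z) y (Pi.single (a, c) 1) * f y := by
    intro a
    refine (i2 a).congr (Filter.Eventually.of_forall fun y => ?_)
    simp only
    rw [fd_g S hR]
    ring
  have key : ∀ a, ∫ y, bb S.m (S.r y) i a * S.rho y * fderiv ℝ f y (Pi.single (a, c) 1) =
      -∫ y, Q S i c a y * f y * S.rho y := by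
    intro a
    rw [integral_mul_fderiv_eq_neg_fderiv_mul_of_integrable (i4 a) (i1 a) (i3 a)
      (fun x _ => hgd a x) (fun x _ => hfd x)]
    congr 1
    refine integral_congr_ae (Filter.Eventually.of_forall fun y => ?_)
    simp only
    rw [fd_g S hR]
    ring
  have s1 : ∫ y, S.D i c f y * S.rho y =
      ∑ a, ∫ y, bb S.m (S.r y) i a * S.rho y * fderiv ℝ f y (Pi.single (a, c) 1) := by
    rw [← integral_finsetSum _ fun a _ => i1 a]
    refine integral_congr_ae (Filter.Eventually.of_forall fun y => ?_)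
    simp only
    rw [D_eq, Finset.sum_mul]
    exact Finset.sum_congr rfl fun a _ => by ring
  rw [s1, Finset.sum_congr rfl fun a _ => key a, Finset.sum_neg_distrib,
    ← integral_finsetSum _ fun a _ => i2 a, ← integral_const_mul, ← integral_neg]
  refine integral_congr_ae (Filter.Eventually.of_forall fun y => ?_)
  simp only
  have := sum_Q S hWa hL i c y
  have h5 : ∑ a, Q S i c a y * f y * S.rho y = (∑ a, Q S i c a y) * f y * S.rho y := by
    rw [Finset.sum_mul, Finset.sum_mul]
  rw [h5, this]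
  ring

end Pool.Agent.Lib.MP_fa837f_gt.P2.H16
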